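import Pool.Agent.R129.Ball.Main

/-!
# Graphs in which few circuits avoid some balls
-/

set_option autoImplicit false
set_option linter.unusedSectionVars false

namespace Pool.T9h45.BC

open Finset Pool.Agent.TH676.Z Pool.Agent.Y335.FL Pool.Agent.Y358.IN Pool.Agent.R129.Ball

section cls

variable {V E : Type} [Fintype V] [DecidableEq V] [Fintype E] [DecidableEq E]

/-- the edges (no loops) with both ends in `A` -/
def spn (src dst : E → V) (A : Finset V) : Finset E :=
  univ.filter (fun e => src e ≠ dst e ∧ src e ∈ A ∧ dst e ∈ A)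

theorem mem_spn {src dst : E → V} {A : Finset V} {e : E} :
    e ∈ spn src dst A ↔ src e ≠ dst e ∧ src e ∈ A ∧ dst e ∈ A := by
  unfold spn
  rw [mem_filter]
  exact ⟨fun h => h.2, fun h => ⟨mem_univ _, h⟩⟩

/-- nonempty sets `A` of vertices outside of the balls span less than `|A| + b` edges -/
def ClR {ι : Type} (r : ι → ℕ) (b : ℕ) (src dst : E → V) : Prop :=
  ∃ c : ι → V, ∀ A : Finset V, A.Nonempty → (∀ x ∈ A, ∀ i, ¬ Near src dst (r i) (c i) x) →
    (spn src dst A).card + 1 ≤ A.card + b

theorem ccR {ι : Type} (r : ι → ℕ) (b : ℕ) : CC (V := V) (E := E) (ClR r b) := by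
  classical
  intro src dst e0 h hne
  obtain ⟨c, hc⟩ := h
  obtain ⟨u, hu⟩ : ∃ u, u = src e0 := ⟨_, rfl⟩
  obtain ⟨v, hv⟩ : ∃ v, v = dst e0 := ⟨_, rfl⟩
  rw [← hu, ← hv] at hne ⊢
  have hφv : ctr u v v = u := by simp [ctr]
  have hφx : ∀ x, x ≠ v → ctr u v x = x := fun x hx => by simp [ctr, hx]
  have hφn : ∀ x, ctr u v x ≠ v := by
    intro x
    by_cases hx : x = v
    · rw [hx, hφv]
      exact hne
    · rw [hφx x hx]
      exact hx
  refine ⟨fun i => ctr u v (c i), ?_⟩
  intro A hA hAn
  by_cases hAu : u ∈ A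
  · have h1 := hc (insert v A) (insert_nonempty _ _) (by
      intro x hx i hnear
      have h2 := hnear.ctr (u := u) (v := v)
      rw [mem_insert] at hx
      by_cases hxv : x = v
      · rw [hxv, hφv] at h2
        exact hAn u hAu i h2
      · rw [hφx x hxv] at h2
        exact hAn x (hx.resolve_left hxv) i h2)
    have h2 : spn (ctr u v ∘ src) (ctr u v ∘ dst) A ⊆ (spn src dst (insert v A)).erase e0 := by
      intro d hd
      rw [mem_spn] at hd
      obtain ⟨h3, h4, h5⟩ := hd
      simp only [Function.comp] at h3 h4 h5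
      rw [mem_erase, mem_spn]
      refine ⟨?_, ?_, ?_, ?_⟩
      · rintro rfl
        rw [← hu, ← hv] at h3
        rw [hφv, hφx u hne] at h3
        exact h3 rfl
      · intro h
        exact h3 (by rw [h])
      · rw [mem_insert]
        by_cases hx : src d = v
        · exact Or.inl hx
        · rw [hφx _ hx] at h4
          exact Or.inr h4
      · rw [mem_insert]
        by_cases hx : dst d = v
        · exact Or.inl hx
        · rw [hφx _ hx] at h5
          exact Or.inr h5
    have h3 := card_le_card h2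
    have h4 : e0 ∈ spn src dst (insert v A) := by
      rw [mem_spn, ← hu, ← hv]
      exact ⟨hne, mem_insert_of_mem hAu, mem_insert_self _ _⟩
    rw [card_erase_of_mem h4] at h3
    have h5 := card_pos.2 ⟨e0, h4⟩
    have h6 := card_insert_le v A
    omega
  · have hsub : spn (ctr u v ∘ src) (ctr u v ∘ dst) A ⊆ spn src dst (A.erase v) := by
      intro d hd
      rw [mem_spn] at hd
      obtain ⟨h3, h4, h5⟩ := hd
      simp only [Function.comp] at h3 h4 h5
      have hs : src d ≠ v := by
        intro h
        rw [h, hφv] at h4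
        exact hAu h4
      have hd' : dst d ≠ v := by
        intro h
        rw [h, hφv] at h5
        exact hAu h5
      rw [hφx _ hs] at h3 h4
      rw [hφx _ hd'] at h3 h5
      rw [mem_spn, mem_erase, mem_erase]
      exact ⟨h3, ⟨hs, h4⟩, ⟨hd', h5⟩⟩
    have h1 := card_le_card hsub
    have h2 := card_erase_le (s := A) (a := v)
    by_cases hE : (A.erase v).Nonempty
    · have h3 := hc (A.erase v) hE (by
        intro x hx i hnear
        rw [mem_erase] at hx
        have h4 := hnear.ctr (u := u) (v := v)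
        rw [hφx x hx.1] at h4
        exact hAn x hx.2 i h4)
      omega
    · rw [not_nonempty_iff_eq_empty] at hE
      have h4 : spn src dst (A.erase v) = ∅ := by
        rw [hE, eq_empty_iff_forall_notMem]
        intro d hd
        rw [mem_spn] at hd
        exact absurd hd.2.1 (notMem_empty _)
      rw [h4, card_empty] at h1
      have h5 := card_pos.2 hA
      omega

end cls

section near

variable {V E : Type} [Fintype V] [DecidableEq V] [Fintype E] [DecidableEq E] {s d : E → V}

theorem Near.cons' {m : ℕ} {a y b : V} (h : Adj s d a y) (hn : Near s d m y b) :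
    Near s d (m + 1) a b := by
  induction hn with
  | refl m x => exact Near.step (Near.refl m a) h
  | step _ h2 ih => exact Near.step (ih h) h2

theorem near_mono' {n m : ℕ} {a b : V} (h : Near s d n a b) (hnm : n ≤ m) : Near s d m a b := by
  induction hnm with
  | refl => exact h
  | step _ ih => exact ih.succ

theorem near_of_walk (G : SimpleGraph V) (hG : ∀ a b, G.Adj a b ↔ Adj s d a b) {a b : V}
    (p : G.Walk a b) : Near s d p.length a b := by
  induction p with
  | nil => exact Near.refl _ _
  | cons h q ih =>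
    rw [SimpleGraph.Walk.length_cons]
    exact Near.cons' ((hG _ _).1 h) ih

end near

/-- **Main step.** -/
theorem flow_of_ClR (hc : St_contract) {ι : Type} [Fintype ι] (r : ι → ℕ) (b : ℕ)
    (h31 : ∑ i, (2 ^ (r i + 1) - 1) ≤ 31)
    (h127 : Fintype.card ι + 3 * ∑ i, (2 ^ (r i + 1) - 1) + 2 * b ≤ 127)
    {V E : Type} [Fintype V] [DecidableEq V] [Fintype E] [DecidableEq E] (src dst : E → V)
    (hcl : ClR r b src dst) (hbr : Br src dst ∅ ∅) : FlowOn src dst ∅ ∅ := by
  classical
  by_contra hn
  obtain ⟨s, d, ⟨c, hcov⟩, hM⟩ := exists_minC (ccR r b) src dst hcl hbr hn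
  have h3 := threeC hc hM
  have hgi := girthC hc hM
  by_cases hl : ∀ e, s e = d e
  · exact hM.nf (flow_of_loops hl)
  push Not at hl
  obtain ⟨e, he⟩ := hl
  let G : SimpleGraph V :=
    { Adj := Adj s d
      symm := ⟨fun a b h => GiAux.adj_symm h⟩
      loopless := ⟨fun a h => h.1 rfl⟩ }
  have hG : ∀ a b, G.Adj a b ↔ Adj s d a b := fun a b => Iff.rfl
  have h12 : ∀ (w : V) (c : G.Walk w w), c.IsCycle → 12 ≤ c.length :=
    fun w c hc => Ord.cycle_len hgi G hG c hc
  have hxy : G.Adj (s e) (d e) := ⟨he, e, Or.inl ⟨rfl, rfl⟩⟩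
  -- the number of the vertices
  have hn126 : 126 ≤ (Ni G).card := by
    have h1 := moore V (Adj s d) (fun a b h => GiAux.adj_symm h) (fun a h => h.1 rfl) hgi h3
      ⟨s e, d e, hxy⟩
    refine h1.trans (card_le_card ?_)
    intro v hv
    rw [mem_filter] at hv
    unfold Ni
    exact mem_filter.2 ⟨mem_univ _, hv.2⟩
  have hr4 : ∀ i, r i ≤ 4 := by
    intro i
    by_contra hcon
    have h1 : 2 ^ (r i + 1) - 1 ≤ ∑ i, (2 ^ (r i + 1) - 1) :=
      single_le_sum (f := fun i => 2 ^ (r i + 1) - 1) (fun _ _ => Nat.zero_le _) (mem_univ i)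
    have h2 : 2 ^ 6 ≤ 2 ^ (r i + 1) := Nat.pow_le_pow_right (by norm_num) (by omega)
    omega
  -- the balls, the rest and the spheres
  obtain ⟨B, hB⟩ : ∃ B : ι → Finset V, ∀ i x, x ∈ B i ↔ (∃ y, G.Adj x y) ∧
      Near s d (r i) (c i) x :=
    ⟨fun i => (Ni G).filter (fun x => Near s d (r i) (c i) x), fun i x => by
      rw [mem_filter, Ni, mem_filter]
      exact ⟨fun h => ⟨h.1.2, h.2⟩, fun h => ⟨⟨mem_univ _, h.1⟩, h.2⟩⟩⟩
  obtain ⟨R, hR⟩ : ∃ R : Finset V, ∀ x, x ∈ R ↔ (∃ y, G.Adj x y) ∧
      ∀ i, ¬ Near s d (r i) (c i) x :=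
    ⟨(Ni G).filter (fun x => ∀ i, ¬ Near s d (r i) (c i) x), fun x => by
      rw [mem_filter, Ni, mem_filter]
      exact ⟨fun h => ⟨h.1.2, h.2⟩, fun h => ⟨⟨mem_univ _, h.1⟩, h.2⟩⟩⟩
  have hball : ∀ i, 31 * ((B i).card + (Lv G (r i + 1) (c i)).card) + (2 ^ (r i + 1) - 1) * 33 ≤
      31 + (2 ^ (r i + 1) - 1) * (Ni G).card := by
    intro i
    by_cases hi : ∃ y, G.Adj (c i) y
    · obtain ⟨y, hy⟩ := hi
      have h1 := ball h12 h3 hy (r := r i + 1) (by have := hr4 i; omega)
      have h2 : (B i).card + (Lv G (r i + 1) (c i)).card ≤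
          ((range (r i + 1 + 1)).biUnion fun j => Lv G j (c i)).card := by
        rw [← card_union_of_disjoint]
        · refine card_le_card (union_subset ?_ ?_)
          · intro x hx
            obtain ⟨_, hx⟩ := (hB i x).1 hx
            obtain ⟨p, hp⟩ := near_walk G hG hx
            have hp' : p.bypass.length ≤ r i := p.length_bypass_le_length.trans hp
            exact mem_biUnion.2 ⟨p.bypass.length, mem_range.2 (by omega),
              mem_Lv.2 ⟨p.bypass, p.bypass_isPath, rfl⟩⟩
          · intro x hx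
            exact mem_biUnion.2 ⟨r i + 1, mem_range.2 (by omega), hx⟩
        · rw [Finset.disjoint_left]
          intro x hx hx'
          obtain ⟨_, hx⟩ := (hB i x).1 hx
          obtain ⟨p, hp⟩ := near_walk G hG hx
          have hp' : p.bypass.length ≤ r i := p.length_bypass_le_length.trans hp
          have h4 := hr4 i
          exact (Finset.disjoint_left.1 (Lv_disj h12 (a := c i) (i := p.bypass.length)
            (j := r i + 1) (by omega) (by omega)) (mem_Lv.2 ⟨p.bypass, p.bypass_isPath, rfl⟩)) hx'
      omega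
    · have h1 : B i = ∅ := by
        rw [eq_empty_iff_forall_notMem]
        intro x hx
        obtain ⟨⟨y, hy⟩, hx2⟩ := (hB i x).1 hx
        obtain ⟨p, _⟩ := near_walk G hG hx2
        exact hi (Ord.nbr hy p.reverse)
      have h2 : Lv G (r i + 1) (c i) = ∅ := by
        rw [eq_empty_iff_forall_notMem]
        intro x hx
        obtain ⟨p, _, hpl⟩ := mem_Lv.1 hx
        cases p with
        | nil => simp at hpl
        | cons h q => exact hi ⟨_, h⟩
      rw [h1, h2, card_empty]
      have h5 : (2 ^ (r i + 1) - 1) * 33 ≤ (2 ^ (r i + 1) - 1) * (Ni G).card :=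
        Nat.mul_le_mul_left _ (by omega)
      omega
  -- a vertex outside of a ball has at most one neighbour in it
  have huniq : ∀ i, ∀ y, ¬ Near s d (r i) (c i) y → ∀ x, Near s d (r i) (c i) x → G.Adj x y →
      ∃ p : G.Walk (c i) x, ∃ h : G.Adj x y, (p.concat h).IsPath ∧ (p.concat h).length = r i + 1 := by
    intro i y hy x hx hxy
    obtain ⟨p, hp⟩ := near_walk G hG hx
    have hp' : p.bypass.length ≤ r i := p.length_bypass_le_length.trans hp
    have hys : y ∉ p.bypass.support := by
      intro h
      have h1 := near_of_walk G hG (p.bypass.takeUntil y h)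
      have h2 := p.bypass.length_takeUntil_le_length h
      exact hy (near_mono' h1 (by omega))
    have hpl : p.bypass.length = r i := by
      by_contra hne
      have h1 := near_of_walk G hG (p.bypass.concat hxy)
      rw [SimpleGraph.Walk.length_concat] at h1
      exact hy (near_mono' h1 (by omega))
    exact ⟨p.bypass, hxy, p.bypass_isPath.concat hys hxy, by
      rw [SimpleGraph.Walk.length_concat, hpl]⟩
  -- degrees in the rest
  have hdeg : ∀ y ∈ R, 3 ≤ (R.filter (fun x => G.Adj y x)).card +
      (univ.filter (fun i => y ∈ Lv G (r i + 1) (c i))).card := by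
    intro y hy
    obtain ⟨⟨z, hz⟩, hyb⟩ := (hR y).1 hy
    obtain ⟨a1, a2, a3, g1, g2, g3, n1, n2, n3⟩ := h3 y z hz
    have h4 : 3 ≤ (univ.filter (fun x => G.Adj y x)).card := by
      have h5 : ({a1, a2, a3} : Finset V).card = 3 := card_eq_three.2 ⟨a1, a2, a3, n1, n2, n3, rfl⟩
      rw [← h5]
      refine card_le_card ?_
      intro x hx
      rw [mem_insert, mem_insert, mem_singleton] at hx
      rw [mem_filter]
      refine ⟨mem_univ _, ?_⟩
      rcases hx with rfl | rfl | rfl
      · exact g1
      · exact g2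
      · exact g3
    have h5 : (univ.filter (fun x => G.Adj y x)).card ≤ (R.filter (fun x => G.Adj y x)).card +
        (univ.filter (fun x => G.Adj y x ∧ x ∉ R)).card := by
      rw [← card_union_of_disjoint]
      · refine card_le_card ?_
        intro x hx
        have hx' := (mem_filter.1 hx).2
        rw [mem_union, mem_filter, mem_filter]
        by_cases h : x ∈ R
        · exact Or.inl ⟨h, hx'⟩
        · exact Or.inr ⟨mem_univ _, hx', h⟩
      · rw [Finset.disjoint_left]
        intro x hx hx'
        exact (mem_filter.1 hx').2.2 (mem_filter.1 hx).1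
    have h6 : (univ.filter (fun x => G.Adj y x ∧ x ∉ R)).card ≤
        (univ.filter (fun i => y ∈ Lv G (r i + 1) (c i))).card := by
      have hex1 : ∀ x, G.Adj y x ∧ x ∉ R → ∃ i, Near s d (r i) (c i) x := by
        intro x hx
        by_contra hcon
        push Not at hcon
        exact hx.2 ((hR x).2 ⟨⟨y, hx.1.symm⟩, hcon⟩)
      by_cases hemp : ∃ x0, G.Adj y x0 ∧ x0 ∉ R
      swap
      · have h7 : univ.filter (fun x => G.Adj y x ∧ x ∉ R) = ∅ := by
          rw [eq_empty_iff_forall_notMem]
          intro x hx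
          exact hemp ⟨x, (mem_filter.1 hx).2⟩
        rw [h7, card_empty]
        exact Nat.zero_le _
      obtain ⟨x0, hx0⟩ := hemp
      obtain ⟨i0, -⟩ := hex1 x0 hx0
      have hex : ∀ x, ∃ i, G.Adj y x ∧ x ∉ R → Near s d (r i) (c i) x := by
        intro x
        by_cases hx : G.Adj y x ∧ x ∉ R
        · obtain ⟨i, hi⟩ := hex1 x hx
          exact ⟨i, fun _ => hi⟩
        · exact ⟨i0, fun h => absurd h hx⟩
      choose f hf using hex
      apply card_le_card_of_injOn f
      · intro x hx
        have hx' := (mem_filter.1 (mem_coe.1 hx)).2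
        obtain ⟨p, h, hp, hpl⟩ := huniq (f x) y (hyb _) x (hf x hx') hx'.1.symm
        rw [mem_coe, mem_filter]
        exact ⟨mem_univ _, mem_Lv.2 ⟨_, hp, hpl⟩⟩
      · intro x hx x' hx' hxx
        have hx1 := (mem_filter.1 (mem_coe.1 hx)).2
        have hx1' := (mem_filter.1 (mem_coe.1 hx')).2
        obtain ⟨p, h, hp, hpl⟩ := huniq (f x) y (hyb _) x (hf x hx1) hx1.1.symm
        obtain ⟨q, h', hq, hql⟩ := huniq (f x) y (hyb _) x' (by
          have h9 := hf x' hx1'
          rwa [← hxx] at h9) hx1'.1.symm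
        have h4 := hr4 (f x)
        have e1 := Ord.uniq h12 hp hq (by omega)
        have e2 := congrArg SimpleGraph.Walk.penultimate e1
        rwa [SimpleGraph.Walk.penultimate_concat, SimpleGraph.Walk.penultimate_concat] at e2
    omega
  -- edges in the rest
  have hE : ∑ y ∈ R, (R.filter (fun x => G.Adj y x)).card ≤ 2 * (spn s d R).card := by
    have h1 : ∑ y ∈ R, (R.filter (fun x => G.Adj y x)).card =
        ((R ×ˢ R).filter (fun p => G.Adj p.1 p.2)).card := by
      rw [card_filter, sum_product]
      exact sum_congr rfl fun y _ => card_filter _ _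
    have h2 : ∀ p : V × V, ∃ q : E × Bool, G.Adj p.1 p.2 →
        (if q.2 then s q.1 = p.1 ∧ d q.1 = p.2 else s q.1 = p.2 ∧ d q.1 = p.1) := by
      intro p
      by_cases hp : G.Adj p.1 p.2
      · obtain ⟨-, e', he' | he'⟩ := hp
        · exact ⟨(e', true), fun _ => by simpa using he'⟩
        · exact ⟨(e', false), fun _ => by simpa using he'⟩
      · exact ⟨(e, true), fun h => absurd h hp⟩
    choose f hf using h2
    rw [h1, mul_comm, ← Fintype.card_bool, ← card_univ, ← card_product]
    apply card_le_card_of_injOn f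
    · intro p hp
      obtain ⟨hp1, hp2⟩ := mem_filter.1 (mem_coe.1 hp)
      rw [mem_product] at hp1
      have h3 := hf p hp2
      rw [mem_coe, mem_product, mem_spn]
      refine ⟨?_, mem_univ _⟩
      split_ifs at h3 with hq
      · rw [h3.1, h3.2]
        exact ⟨hp2.ne, hp1⟩
      · rw [h3.1, h3.2]
        exact ⟨hp2.ne.symm, hp1.2, hp1.1⟩
    · intro p hp p' hp' h
      have h3 := hf p (mem_filter.1 (mem_coe.1 hp)).2
      have h4 := hf p' (mem_filter.1 (mem_coe.1 hp')).2
      rw [← h] at h4
      split_ifs at h3 h4 with hq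
      · exact Prod.ext (h3.1.symm.trans h4.1) (h3.2.symm.trans h4.2)
      · exact Prod.ext (h3.2.symm.trans h4.2) (h3.1.symm.trans h4.1)
  have hL : ∑ y ∈ R, (univ.filter (fun i => y ∈ Lv G (r i + 1) (c i))).card ≤
      ∑ i, (Lv G (r i + 1) (c i)).card := by
    have h1 : ∑ y ∈ R, (univ.filter (fun i => y ∈ Lv G (r i + 1) (c i))).card =
        ∑ i, (R.filter (fun y => y ∈ Lv G (r i + 1) (c i))).card := by
      simp only [card_filter]
      exact sum_comm
    rw [h1]
    refine sum_le_sum fun i _ => card_le_card ?_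
    intro y hy
    exact (mem_filter.1 hy).2
  have hNi : (Ni G).card ≤ R.card + ∑ i, (B i).card := by
    have h1 : Ni G ⊆ R ∪ univ.biUnion B := by
      intro x hx
      unfold Ni at hx
      have hx' := (mem_filter.1 hx).2
      rw [mem_union, mem_biUnion]
      by_cases h : x ∈ R
      · exact Or.inl h
      · right
        by_contra hcon
        push Not at hcon
        exact h ((hR x).2 ⟨hx', fun i hi => hcon i (mem_univ _) ((hB i x).2 ⟨hx', hi⟩)⟩)
    exact (card_le_card h1).trans ((card_union_le _ _).trans (Nat.add_le_add_left card_biUnion_le _))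
  have hsum := sum_le_sum fun i (_ : i ∈ (univ : Finset ι)) => hball i
  rw [sum_add_distrib, sum_add_distrib, ← mul_sum, sum_add_distrib, ← sum_mul, ← sum_mul, sum_const,
    card_univ, smul_eq_mul] at hsum
  have hk : Fintype.card ι ≤ ∑ i, (2 ^ (r i + 1) - 1) := by
    rw [← card_univ, card_eq_sum_ones]
    refine sum_le_sum fun i _ => ?_
    have : 2 ^ 1 ≤ 2 ^ (r i + 1) := Nat.pow_le_pow_right (by norm_num) (by omega)
    omega
  generalize hS : ∑ i, (2 ^ (r i + 1) - 1) = S at *
  generalize (Ni G).card = n at *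
  generalize ∑ i, (B i).card = tB at *
  generalize ∑ i, (Lv G (r i + 1) (c i)).card = tL at *
  generalize Fintype.card ι = k at *
  have hfin : n + 2 ≤ 2 * b + (tB + tL) ∨ n ≤ tB := by
    by_cases hRe : R.Nonempty
    · left
      have h1 := hcov R hRe (fun x hx => ((hR x).1 hx).2)
      have h2 : 3 * R.card ≤ 2 * (spn s d R).card + tL := by
        calc 3 * R.card = ∑ y ∈ R, 3 := by rw [sum_const, smul_eq_mul, mul_comm]
          _ ≤ ∑ y ∈ R, ((R.filter (fun x => G.Adj y x)).card +
              (univ.filter (fun i => y ∈ Lv G (r i + 1) (c i))).card) := sum_le_sum hdeg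
          _ ≤ _ := by
            rw [sum_add_distrib]
            exact Nat.add_le_add hE hL
      omega
    · right
      rw [not_nonempty_iff_eq_empty] at hRe
      rw [hRe, card_empty] at hNi
      omega
  obtain ⟨m, rfl⟩ : ∃ m, n = 126 + m := ⟨n - 126, by omega⟩
  have hSm : S * m ≤ 31 * m := Nat.mul_le_mul_right m h31
  have hmul : S * (126 + m) = S * 126 + S * m := Nat.mul_add _ _ _
  rw [hmul] at hsum
  generalize S * m = Sm at *
  omega

end Pool.T9h45.BC
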